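import Pool.Agent.PDN.Stmts

/-! # EUL: a planar graph with `3 n - 6` edges and minimal degree four is a triangulation -/

set_option autoImplicit false

namespace Pool.Agent.PDN.H46

open Pool.Agent.PDN

variable {V : Type} {G : SimpleGraph V}

theorem finDart [Finite V] : Finite G.Dart :=
  Finite.of_injective (fun d : G.Dart => d.toProd) SimpleGraph.Dart.toProd_injective

theorem face_apply (ρ : Equiv.Perm G.Dart) (d : G.Dart) : facePerm ρ d = ρ d.symm := rfl

/-- at least three darts on every face -/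
theorem face_ge [Finite V] (ρ : Equiv.Perm G.Dart) (h1 : ∀ d, (ρ d).fst = d.fst)
    (h2 : ∀ d e : G.Dart, d.fst = e.fst → ρ.SameCycle d e)
    (h4 : ∀ v, 2 ≤ Nat.card (G.neighborSet v)) (d : G.Dart) :
    facePerm ρ d ≠ d ∧ facePerm ρ (facePerm ρ d) ≠ d := by
  constructor
  · intro h
    have h3 := congrArg (fun e : G.Dart => e.fst) h
    simp only [face_apply, h1] at h3
    exact d.adj.ne h3.symm
  · intro h
    -- `ρ (ρ d.symm).symm = d`
    rw [face_apply, face_apply] at h
    have h3 : (ρ (ρ d.symm).symm).fst = d.fst := by rw [h]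
    rw [h1] at h3
    -- `(ρ d.symm).snd = d.fst`
    have h5 : ρ d.symm = d.symm := by
      apply SimpleGraph.Dart.ext
      apply Prod.ext
      · exact h1 _
      · exact h3
    have hfix : ∀ e : G.Dart, e.fst = d.symm.fst → e = d.symm := by
      intro e he
      have h6 := h2 d.symm e he.symm
      obtain ⟨n, hn⟩ := h6
      rw [← hn]
      exact Equiv.Perm.zpow_apply_eq_self_of_apply_eq_self h5 n
    have h7 : Subsingleton (G.neighborSet d.symm.fst) := by
      constructor
      intro a b
      have ha := hfix ⟨(d.symm.fst, a), a.2⟩ rfl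
      have hb := hfix ⟨(d.symm.fst, b), b.2⟩ rfl
      have hab := ha.trans hb.symm
      apply Subtype.ext
      exact congrArg (fun e : G.Dart => e.snd) hab
    have h8 := h4 d.symm.fst
    have h9 : Nat.card (G.neighborSet d.symm.fst) ≤ 1 := Finite.card_le_one_iff_subsingleton.2 h7
    omega

/-- the triangulation -/
def tri (ρ : Equiv.Perm G.Dart) (h1 : ∀ d, (ρ d).fst = d.fst)
    (h2 : ∀ d e : G.Dart, d.fst = e.fst → ρ.SameCycle d e) [Finite V]
    (h3 : ∀ d, facePerm ρ (facePerm ρ (facePerm ρ d)) = d) : Tri V where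
  f u v w := ∃ d : G.Dart, d.fst = u ∧ d.snd = v ∧ (ρ d).snd = w
  cyc := by
    rintro u v w ⟨d, rfl, rfl, rfl⟩
    have h4 := h3 d.symm
    rw [face_apply, face_apply, face_apply, SimpleGraph.Dart.symm_symm] at h4
    -- `z` is the second vertex of `ρ (ρ d).symm`
    refine ⟨(ρ (ρ d).symm).symm, ?_, ?_, ?_⟩
    · have h5 := congrArg (fun e : G.Dart => e.fst) h4
      simp only [h1] at h5
      exact h5
    · change (ρ (ρ d).symm).fst = (ρ d).snd
      rw [h1]
      rfl
    · rw [h4]
      rfl
  uniq := by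
    rintro u v w w' ⟨d, rfl, rfl, rfl⟩ ⟨e, he, he', rfl⟩
    have : e = d := SimpleGraph.Dart.ext _ _ (Prod.ext he he')
    rw [this]
  opp := by
    rintro u v w ⟨d, rfl, rfl, rfl⟩
    exact ⟨_, d.symm, rfl, rfl, rfl⟩
  ne := by
    rintro u v w ⟨d, rfl, rfl, rfl⟩
    exact d.adj.ne
  link := by
    rintro u v w ⟨z, d, rfl, rfl, rfl⟩ ⟨z', e, he, rfl, rfl⟩
    haveI : Finite G.Dart := finDart
    obtain ⟨n, hn⟩ := (h2 d e he.symm).exists_nat_pow_eq
    rw [← hn]
    clear hn
    induction n with
    | zero => exact Relation.ReflTransGen.refl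
    | succ n ih =>
      refine ih.tail ?_
      refine ⟨(ρ ^ n) d, ?_, rfl, ?_⟩
      · clear ih
        induction n with
        | zero => rfl
        | succ n ih =>
          rw [pow_succ', Equiv.Perm.mul_apply, h1, ih]
      · rw [pow_succ', Equiv.Perm.mul_apply]

/-- EUL -/
theorem eul : EulStmt := by
  classical
  intro V _ G hpl hdeg hsum
  obtain ⟨ρ, h1, h2, hE⟩ := hpl
  have hfin : Finite V := inferInstance
  letI : DecidableRel G.Adj := Classical.decRel _
  have hdc : ∀ v, Nat.card (G.neighborSet v) = G.degree v := fun v => by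
    rw [Nat.card_eq_fintype_card, G.card_neighborSet_eq_degree]
  have hface := face_ge ρ h1 h2 (fun v => by have := hdeg v; omega)
  -- counts
  have hD1 : Fintype.card G.Dart = ∑ v, Nat.card (G.neighborSet v) := by
    rw [G.dart_card_eq_sum_degrees]
    exact Finset.sum_congr rfl fun v _ => (hdc v).symm
  have hD2 : Fintype.card G.Dart = 2 * Nat.card G.edgeSet := by
    rw [G.dart_card_eq_twice_card_edges, Nat.card_eq_fintype_card, ← G.edgeFinset_card]
  have hiso : Nat.card {v : V // ∀ w, ¬ G.Adj v w} = 0 := by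
    rw [Finite.card_eq_zero_iff]
    constructor
    rintro ⟨v, hv⟩
    have h5 : Nat.card (G.neighborSet v) = 0 := by
      rw [Finite.card_eq_zero_iff]
      exact ⟨fun w => hv w w.2⟩
    have := hdeg v
    omega
  have hVn : Nat.card V = Fintype.card V := Nat.card_eq_fintype_card
  -- the map to the faces
  haveI hfq : Finite (Faces ρ) :=
    inferInstanceAs (Finite (Quotient (Equiv.Perm.SameCycle.setoid (facePerm ρ))))
  letI : Fintype (Faces ρ) := Fintype.ofFinite _
  obtain ⟨π, hπ⟩ : ∃ π : G.Dart → Faces ρ, π = fun d => Quotient.mk _ d := ⟨_, rfl⟩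
  have hπe : ∀ d e, π d = π e ↔ (facePerm ρ).SameCycle d e := by
    intro d e
    rw [hπ]
    exact Quotient.eq (r := Equiv.Perm.SameCycle.setoid (facePerm ρ))
  have hπs : ∀ x : Faces ρ, ∃ d, π d = x := by
    intro x
    obtain ⟨d, hd⟩ := Quotient.exists_rep x
    exact ⟨d, by rw [hπ]; exact hd⟩
  have hsame1 : ∀ d, π (facePerm ρ d) = π d := fun d =>
    (hπe _ _).2 (Equiv.Perm.SameCycle.rfl.apply_left)
  have htrip : ∀ d, ({d, facePerm ρ d, facePerm ρ (facePerm ρ d)} : Finset G.Dart).card = 3 := by
    intro d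
    rw [Finset.card_eq_three]
    refine ⟨d, facePerm ρ d, facePerm ρ (facePerm ρ d), (hface d).1.symm, (hface d).2.symm, ?_, rfl⟩
    exact (hface _).1.symm
  have hsub : ∀ d, ({d, facePerm ρ d, facePerm ρ (facePerm ρ d)} : Finset G.Dart) ⊆
      Finset.univ.filter fun e => π e = π d := by
    intro d e he
    rw [Finset.mem_filter]
    refine ⟨Finset.mem_univ _, ?_⟩
    simp only [Finset.mem_insert, Finset.mem_singleton] at he
    rcases he with rfl | rfl | rfl
    · rfl
    · exact hsame1 d
    · rw [hsame1, hsame1]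
  have hge : ∀ x : Faces ρ, 3 ≤ (Finset.univ.filter fun e => π e = x).card := by
    intro x
    obtain ⟨d, rfl⟩ := hπs x
    rw [← htrip d]
    exact Finset.card_le_card (hsub d)
  have hcount : Fintype.card G.Dart = ∑ x : Faces ρ, (Finset.univ.filter fun e => π e = x).card := by
    rw [← Finset.card_univ]
    exact Finset.card_eq_sum_card_fiberwise fun _ _ => Finset.mem_univ _
  have hFn : Nat.card (Faces ρ) = Fintype.card (Faces ρ) := Nat.card_eq_fintype_card
  have h3F : 3 * Fintype.card (Faces ρ) ≤ Fintype.card G.Dart := by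
    rw [hcount]
    calc 3 * Fintype.card (Faces ρ) = ∑ _x : Faces ρ, 3 := by
          rw [Finset.sum_const, Finset.card_univ, smul_eq_mul, mul_comm]
      _ ≤ _ := Finset.sum_le_sum fun x _ => hge x
  have hVpos : 0 < Fintype.card V := by omega
  haveI : Nonempty V := Fintype.card_pos_iff.1 hVpos
  have hC1 : 1 ≤ Nat.card G.ConnectedComponent := by
    haveI : Nonempty G.ConnectedComponent := ⟨G.connectedComponentMk (Classical.arbitrary V)⟩
    exact Nat.card_pos
  have hC : Nat.card G.ConnectedComponent = 1 := by omega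
  have hF : 3 * Fintype.card (Faces ρ) = Fintype.card G.Dart := by omega
  -- every face has exactly three darts
  have heq : ∀ x : Faces ρ, (Finset.univ.filter fun e => π e = x).card = 3 := by
    by_contra hcon
    rw [not_forall] at hcon
    obtain ⟨x, hx⟩ := hcon
    have hlt : 3 < (Finset.univ.filter fun e => π e = x).card :=
      lt_of_le_of_ne (hge x) (Ne.symm hx)
    have : ∑ _x : Faces ρ, 3 < ∑ x : Faces ρ, (Finset.univ.filter fun e => π e = x).card :=
      Finset.sum_lt_sum (fun x _ => hge x) ⟨x, Finset.mem_univ _, hlt⟩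
    rw [← hcount, Finset.sum_const, Finset.card_univ, smul_eq_mul] at this
    omega
  have h3 : ∀ d, facePerm ρ (facePerm ρ (facePerm ρ d)) = d := by
    intro d
    have h5 : ({d, facePerm ρ d, facePerm ρ (facePerm ρ d)} : Finset G.Dart) =
        Finset.univ.filter fun e => π e = π d :=
      Finset.eq_of_subset_of_card_le (hsub d) (by rw [heq, htrip])
    have h6 : facePerm ρ (facePerm ρ (facePerm ρ d)) ∈
        ({d, facePerm ρ d, facePerm ρ (facePerm ρ d)} : Finset G.Dart) := by
      rw [h5, Finset.mem_filter]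
      refine ⟨Finset.mem_univ _, ?_⟩
      rw [hsame1, hsame1, hsame1]
    simp only [Finset.mem_insert, Finset.mem_singleton] at h6
    rcases h6 with h6 | h6 | h6
    · exact h6
    · exact absurd h6 (hface _).2
    · exact absurd h6 (hface _).1
  obtain ⟨T, hT⟩ : ∃ T, T = tri ρ h1 h2 h3 := ⟨_, rfl⟩
  have hadj : ∀ u v, T.Adj u v ↔ G.Adj u v := by
    intro u v
    rw [hT]
    constructor
    · rintro ⟨w, d, rfl, rfl, _⟩
      exact d.adj
    · intro h
      exact ⟨_, ⟨(u, v), h⟩, rfl, rfl, rfl⟩
  refine ⟨T, ?_, ?_, ?_, ?_⟩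
  · ext u v
    exact hadj u v
  · haveI : Subsingleton G.ConnectedComponent :=
      Finite.card_le_one_iff_subsingleton.1 hC.le
    refine ⟨fun u v => ?_⟩
    exact SimpleGraph.ConnectedComponent.eq.1 (Subsingleton.elim _ _)
  · unfold Tri.Tight
    have e : {p : V × V // T.Adj p.1 p.2} ≃ G.Dart :=
      { toFun := fun p => ⟨p.1, (hadj _ _).1 p.2⟩
        invFun := fun d => ⟨d.toProd, (hadj _ _).2 d.adj⟩
        left_inv := fun _ => rfl
        right_inv := fun _ => rfl }
    rw [Nat.card_congr e, Nat.card_eq_fintype_card, hVn, hD1]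
    exact hsum
  · intro v
    unfold Tri.deg
    exact Nat.card_congr (Equiv.subtypeEquivRight fun w => hadj v w)

end Pool.Agent.PDN.H46
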